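import Mathlib

/-!
Newton identities for the logarithmic derivatives of a complex polynomial, and the resulting
estimates when all roots are far from the point of evaluation.
-/

namespace Pool.Agent.P.MP_6deb90_an
open Polynomial

/-- power sums of the reciprocals of the differences to the roots -/
noncomputable def pw (s : Multiset ℂ) (z : ℂ) (i : ℕ) : ℂ :=
  (s.map fun r => ((z - r)⁻¹) ^ i).sum

/-- the monic polynomial with the given roots -/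
noncomputable def pr (s : Multiset ℂ) : ℂ[X] := (s.map fun r => X - C r).prod

lemma iter_deriv_lin_mul (r : ℂ) (q : ℂ[X]) (k : ℕ) :
    derivative^[k + 1] ((X - C r) * q)
      = (X - C r) * derivative^[k + 1] q + C ((k : ℂ) + 1) * derivative^[k] q := by
  induction k with
  | zero => simp [add_comm]
  | succ k ih =>
    rw [Function.iterate_succ_apply' (n := k + 1), ih]
    simp only [Function.iterate_succ_apply', derivative_add, derivative_mul, derivative_sub,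
      derivative_X, derivative_C, sub_zero, one_mul, zero_mul, zero_add]
    push_cast
    simp only [map_add, map_one]
    ring

lemma newton_pr (z : ℂ) (s : Multiset ℂ) (hs : ∀ r ∈ s, z ≠ r) :
    eval z (derivative^[1] (pr s)) = eval z (pr s) * pw s z 1 ∧
    eval z (derivative^[2] (pr s)) = eval z (pr s) * (pw s z 1 ^ 2 - pw s z 2) ∧
    eval z (derivative^[3] (pr s)) = eval z (pr s) *
      (pw s z 1 ^ 3 - 3 * pw s z 1 * pw s z 2 + 2 * pw s z 3) ∧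
    eval z (derivative^[4] (pr s)) = eval z (pr s) *
      (pw s z 1 ^ 4 - 6 * pw s z 1 ^ 2 * pw s z 2 + 3 * pw s z 2 ^ 2 + 8 * pw s z 1 * pw s z 3
        - 6 * pw s z 4) ∧
    eval z (derivative^[5] (pr s)) = eval z (pr s) *
      (pw s z 1 ^ 5 - 10 * pw s z 1 ^ 3 * pw s z 2 + 15 * pw s z 1 * pw s z 2 ^ 2
        + 20 * pw s z 1 ^ 2 * pw s z 3 - 20 * pw s z 2 * pw s z 3 - 30 * pw s z 1 * pw s z 4
        + 24 * pw s z 5) ∧
    eval z (derivative^[6] (pr s)) = eval z (pr s) *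
      (pw s z 1 ^ 6 - 15 * pw s z 1 ^ 4 * pw s z 2 + 45 * pw s z 1 ^ 2 * pw s z 2 ^ 2
        - 15 * pw s z 2 ^ 3 + 40 * pw s z 1 ^ 3 * pw s z 3 - 120 * pw s z 1 * pw s z 2 * pw s z 3
        + 40 * pw s z 3 ^ 2 - 90 * pw s z 1 ^ 2 * pw s z 4 + 90 * pw s z 2 * pw s z 4
        + 144 * pw s z 1 * pw s z 5 - 120 * pw s z 6) := by
  induction s using Multiset.induction_on with
  | empty => simp [pr, pw]
  | cons r s ih =>
    have hr : z - r ≠ 0 := sub_ne_zero.mpr (hs r (Multiset.mem_cons_self r s))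
    obtain ⟨h1, h2, h3, h4, h5, h6⟩ := ih fun x hx => hs x (Multiset.mem_cons_of_mem hx)
    have hpr : pr (r ::ₘ s) = (X - C r) * pr s := by simp [pr]
    have hpw : ∀ i, pw (r ::ₘ s) z i = ((z - r)⁻¹) ^ i + pw s z i := by
      intro i; simp [pw]
    have hu : (z - r) * (z - r)⁻¹ = 1 := mul_inv_cancel₀ hr
    have key : ∀ (k : ℕ) (a b : ℂ), eval z (derivative^[k + 1] (pr s)) = eval z (pr s) * a →
        eval z (derivative^[k] (pr s)) = eval z (pr s) * b →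
        eval z (derivative^[k + 1] (pr (r ::ₘ s)))
          = eval z (pr (r ::ₘ s)) * (a + ((k : ℂ) + 1) * (z - r)⁻¹ * b) := by
      intro k a b ha hb
      rw [hpr, iter_deriv_lin_mul]
      simp only [eval_add, eval_mul, eval_sub, eval_X, eval_C, ha, hb]
      linear_combination (-(((k : ℂ) + 1) * (eval z (pr s) * b))) * hu
    have h0 : eval z (derivative^[0] (pr s)) = eval z (pr s) * 1 := by simp
    simp only [hpw]
    generalize (z - r)⁻¹ = u at key ⊢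
    refine ⟨?_, ?_, ?_, ?_, ?_, ?_⟩
    · rw [key 0 _ _ h1 h0]; push_cast; ring
    · rw [key 1 _ _ h2 h1]; push_cast; ring
    · rw [key 2 _ _ h3 h2]; push_cast; ring
    · rw [key 3 _ _ h4 h3]; push_cast; ring
    · rw [key 4 _ _ h5 h4]; push_cast; ring
    · rw [key 5 _ _ h6 h5]; push_cast; ring

lemma norm_pw_le (z : ℂ) (s : Multiset ℂ) (δ : ℝ) (hδ : 0 < δ) (hs : ∀ r ∈ s, δ⁻¹ ≤ ‖z - r‖)
    (i : ℕ) : ‖pw s z i‖ ≤ (Multiset.card s : ℝ) * δ ^ i := by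
  induction s using Multiset.induction_on with
  | empty => simp [pw]
  | cons r s ih =>
    have hpw : pw (r ::ₘ s) z i = ((z - r)⁻¹) ^ i + pw s z i := by simp [pw]
    have h1 := ih fun x hx => hs x (Multiset.mem_cons_of_mem hx)
    have h2 : δ⁻¹ ≤ ‖z - r‖ := hs r (Multiset.mem_cons_self r s)
    have h3 : ‖(z - r)⁻¹‖ ≤ δ := by
      rw [norm_inv]
      exact inv_le_of_inv_le₀ hδ h2
    have h4 : ‖((z - r)⁻¹) ^ i‖ ≤ δ ^ i := by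
      rw [norm_pow]; exact pow_le_pow_left₀ (norm_nonneg _) h3 i
    rw [hpw, Multiset.card_cons]
    push_cast
    have := norm_add_le_of_le h4 h1
    linarith

/-- The quotient of the j-th derivative by the polynomial. -/
noncomputable def E (Q : ℂ[X]) (j : ℕ) (z : ℂ) : ℂ := eval z (derivative^[j] Q) / eval z Q

lemma exists_pw (Q : ℂ[X]) (m : ℕ) (hm : Q.natDegree ≤ m) (z : ℂ) (δ : ℝ) (hδ : 0 < δ)
    (hz : ∀ r, eval r Q = 0 → δ⁻¹ ≤ ‖z - r‖) :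
    ∃ p : ℕ → ℂ, (∀ i, ‖p i‖ ≤ (m : ℝ) * δ ^ i) ∧ E Q 1 z = p 1 ∧
      E Q 2 z = p 1 ^ 2 - p 2 ∧
      E Q 3 z = p 1 ^ 3 - 3 * p 1 * p 2 + 2 * p 3 ∧
      E Q 4 z = p 1 ^ 4 - 6 * p 1 ^ 2 * p 2 + 3 * p 2 ^ 2 + 8 * p 1 * p 3 - 6 * p 4 ∧
      E Q 5 z = p 1 ^ 5 - 10 * p 1 ^ 3 * p 2 + 15 * p 1 * p 2 ^ 2
        + 20 * p 1 ^ 2 * p 3 - 20 * p 2 * p 3 - 30 * p 1 * p 4 + 24 * p 5 ∧
      E Q 6 z = p 1 ^ 6 - 15 * p 1 ^ 4 * p 2 + 45 * p 1 ^ 2 * p 2 ^ 2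
        - 15 * p 2 ^ 3 + 40 * p 1 ^ 3 * p 3 - 120 * p 1 * p 2 * p 3
        + 40 * p 3 ^ 2 - 90 * p 1 ^ 2 * p 4 + 90 * p 2 * p 4
        + 144 * p 1 * p 5 - 120 * p 6 := by
  have hδ' : 0 < δ⁻¹ := inv_pos.mpr hδ
  have hQz : eval z Q ≠ 0 := by
    intro h
    have := hz z h
    simp at this
    linarith
  have hQ : Q ≠ 0 := by
    rintro rfl
    simp at hQz
  have hcard : Multiset.card Q.roots = Q.natDegree := IsAlgClosed.card_roots_eq_natDegree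
  have hfac : C Q.leadingCoeff * pr Q.roots = Q := C_leadingCoeff_mul_prod_multiset_X_sub_C hcard
  have hroot : ∀ r ∈ Q.roots, δ⁻¹ ≤ ‖z - r‖ := fun r hr => hz r (isRoot_of_mem_roots hr)
  have hne : ∀ r ∈ Q.roots, z ≠ r := by
    intro r hr h
    have := hroot r hr
    rw [h] at this
    simp at this
    linarith
  obtain ⟨h1, h2, h3, h4, h5, h6⟩ := newton_pr z Q.roots hne
  have key : ∀ (j : ℕ) (a : ℂ), eval z (derivative^[j] (pr Q.roots)) = eval z (pr Q.roots) * a →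
      E Q j z = a := by
    intro j a h
    unfold E
    rw [div_eq_iff hQz]
    have e1 : derivative^[j] Q = C Q.leadingCoeff * derivative^[j] (pr Q.roots) := by
      conv_lhs => rw [← hfac]
      rw [iterate_derivative_C_mul]
    have e2 : eval z Q = Q.leadingCoeff * eval z (pr Q.roots) := by
      conv_lhs => rw [← hfac]
      simp
    rw [e1, e2, eval_mul, eval_C, h]
    ring
  refine ⟨pw Q.roots z, fun i => ?_, key _ _ h1, key _ _ h2, key _ _ h3, key _ _ h4, key _ _ h5,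
    key _ _ h6⟩
  refine (norm_pw_le z Q.roots δ hδ hroot i).trans ?_
  have : (Multiset.card Q.roots : ℝ) ≤ m := by
    rw [hcard]; exact_mod_cast hm
  gcongr

lemma approx_aux (p : ℕ → ℂ) (e2 e3 e4 e5 e6 : ℂ) (K ε : ℝ) (hK : 0 ≤ K) (hε0 : 0 ≤ ε)
    (hε1 : ε ≤ 1)
    (h1 : ‖p 1‖ ≤ K) (h2 : ‖p 2‖ ≤ ε * K ^ 2) (h3 : ‖p 3‖ ≤ ε * K ^ 3) (h4 : ‖p 4‖ ≤ ε * K ^ 4)
    (h5 : ‖p 5‖ ≤ ε * K ^ 5) (h6 : ‖p 6‖ ≤ ε * K ^ 6)
    (E2 : e2 = p 1 ^ 2 - p 2)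
    (E3 : e3 = p 1 ^ 3 - 3 * p 1 * p 2 + 2 * p 3)
    (E4 : e4 = p 1 ^ 4 - 6 * p 1 ^ 2 * p 2 + 3 * p 2 ^ 2 + 8 * p 1 * p 3 - 6 * p 4)
    (E5 : e5 = p 1 ^ 5 - 10 * p 1 ^ 3 * p 2 + 15 * p 1 * p 2 ^ 2
        + 20 * p 1 ^ 2 * p 3 - 20 * p 2 * p 3 - 30 * p 1 * p 4 + 24 * p 5)
    (E6 : e6 = p 1 ^ 6 - 15 * p 1 ^ 4 * p 2 + 45 * p 1 ^ 2 * p 2 ^ 2
        - 15 * p 2 ^ 3 + 40 * p 1 ^ 3 * p 3 - 120 * p 1 * p 2 * p 3
        + 40 * p 3 ^ 2 - 90 * p 1 ^ 2 * p 4 + 90 * p 2 * p 4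
        + 144 * p 1 * p 5 - 120 * p 6) :
    (‖e2 - p 1 ^ 2‖ ≤ ε * K ^ 2 ∧ ‖e4 - p 1 ^ 4‖ ≤ 23 * (ε * K ^ 4) ∧
      ‖e6 - p 1 ^ 6‖ ≤ 719 * (ε * K ^ 6)) ∧
    (‖e2‖ ≤ 2 * K ^ 2 ∧ ‖e3‖ ≤ 6 * K ^ 3 ∧ ‖e4‖ ≤ 24 * K ^ 4 ∧ ‖e5‖ ≤ 120 * K ^ 5) := by
  have n (k : ℕ) [k.AtLeastTwo] : ‖(ofNat(k) : ℂ)‖ ≤ (ofNat(k) : ℝ) := by simp
  have tot : ∀ (j : ℕ) (e : ℂ) (c : ℝ), 0 ≤ c → ‖e - p 1 ^ j‖ ≤ c * (ε * K ^ j) →
      ‖e‖ ≤ (c + 1) * K ^ j := by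
    intro j e c hc h
    have a1 : ‖p 1 ^ j‖ ≤ K ^ j := by
      rw [norm_pow]; exact pow_le_pow_left₀ (norm_nonneg _) h1 j
    have a2 : e = (e - p 1 ^ j) + p 1 ^ j := by ring
    have a3 : ε * K ^ j ≤ K ^ j := mul_le_of_le_one_left (by positivity) hε1
    have a4 : c * (ε * K ^ j) ≤ c * K ^ j := mul_le_mul_of_nonneg_left a3 hc
    rw [a2]
    have := norm_add_le_of_le h a1
    linarith
  have d2 : ‖e2 - p 1 ^ 2‖ ≤ 1 * (ε * K ^ 2) := by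
    have : e2 - p 1 ^ 2 = -p 2 := by rw [E2]; ring
    rw [this, norm_neg]; linarith
  have t2 := tot 2 e2 1 (by norm_num) d2
  have d3 : ‖e3 - p 1 ^ 3‖ ≤ 5 * (ε * K ^ 3) := by
    have : e3 - p 1 ^ 3 = p 1 * (e2 - p 1 ^ 2) - 2 * (p 2 * p 1) + 2 * p 3 := by
      rw [E3, E2]; ring
    rw [this]
    refine (norm_add_le_of_le (norm_sub_le_of_le (norm_mul_le_of_le h1 d2)
      (norm_mul_le_of_le (n 2) (norm_mul_le_of_le h2 h1))) (norm_mul_le_of_le (n 2) h3)).trans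
      (le_of_eq ?_)
    ring
  have t3 := tot 3 e3 5 (by norm_num) d3
  have d4 : ‖e4 - p 1 ^ 4‖ ≤ 23 * (ε * K ^ 4) := by
    have : e4 - p 1 ^ 4 = p 1 * (e3 - p 1 ^ 3) - 3 * (p 2 * e2) + 6 * (p 3 * p 1) - 6 * p 4 := by
      rw [E4, E3, E2]; ring
    rw [this]
    refine (norm_sub_le_of_le (norm_add_le_of_le (norm_sub_le_of_le (norm_mul_le_of_le h1 d3)
      (norm_mul_le_of_le (n 3) (norm_mul_le_of_le h2 t2)))
      (norm_mul_le_of_le (n 6) (norm_mul_le_of_le h3 h1))) (norm_mul_le_of_le (n 6) h4)).trans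
      (le_of_eq ?_)
    ring
  have t4 := tot 4 e4 23 (by norm_num) d4
  have d5 : ‖e5 - p 1 ^ 5‖ ≤ 119 * (ε * K ^ 5) := by
    have : e5 - p 1 ^ 5 = p 1 * (e4 - p 1 ^ 4) - 4 * (p 2 * e3) + 12 * (p 3 * e2)
        - 24 * (p 4 * p 1) + 24 * p 5 := by
      rw [E5, E4, E3, E2]; ring
    rw [this]
    refine (norm_add_le_of_le (norm_sub_le_of_le (norm_add_le_of_le (norm_sub_le_of_le
      (norm_mul_le_of_le h1 d4)
      (norm_mul_le_of_le (n 4) (norm_mul_le_of_le h2 t3)))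
      (norm_mul_le_of_le (n 12) (norm_mul_le_of_le h3 t2)))
      (norm_mul_le_of_le (n 24) (norm_mul_le_of_le h4 h1))) (norm_mul_le_of_le (n 24) h5)).trans
      (le_of_eq ?_)
    ring
  have t5 := tot 5 e5 119 (by norm_num) d5
  have d6 : ‖e6 - p 1 ^ 6‖ ≤ 719 * (ε * K ^ 6) := by
    have : e6 - p 1 ^ 6 = p 1 * (e5 - p 1 ^ 5) - 5 * (p 2 * e4) + 20 * (p 3 * e3)
        - 60 * (p 4 * e2) + 120 * (p 5 * p 1) - 120 * p 6 := by
      rw [E6, E5, E4, E3, E2]; ring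
    rw [this]
    refine (norm_sub_le_of_le (norm_add_le_of_le (norm_sub_le_of_le (norm_add_le_of_le
      (norm_sub_le_of_le (norm_mul_le_of_le h1 d5)
      (norm_mul_le_of_le (n 5) (norm_mul_le_of_le h2 t4)))
      (norm_mul_le_of_le (n 20) (norm_mul_le_of_le h3 t3)))
      (norm_mul_le_of_le (n 60) (norm_mul_le_of_le h4 t2)))
      (norm_mul_le_of_le (n 120) (norm_mul_le_of_le h5 h1))) (norm_mul_le_of_le (n 120) h6)).trans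
      (le_of_eq ?_)
    ring
  refine ⟨⟨by linarith, d4, d6⟩, by linarith, by linarith, by linarith, by linarith⟩

/-- Main local estimate. -/
lemma approx (Q : ℂ[X]) (m : ℕ) (hm : Q.natDegree ≤ m) (z : ℂ) (δ : ℝ) (hδ : 0 < δ)
    (hz : ∀ r, eval r Q = 0 → δ⁻¹ ≤ ‖z - r‖) :
    ‖E Q 1 z‖ ≤ m * δ ∧ ‖E Q 2 z - E Q 1 z ^ 2‖ ≤ m * δ ^ 2 ∧
    ∀ K ε : ℝ, ‖E Q 1 z‖ ≤ K → δ ≤ K → 0 ≤ ε → ε ≤ 1 → m * δ ^ 2 ≤ ε * K ^ 2 →
      (‖E Q 2 z - E Q 1 z ^ 2‖ ≤ ε * K ^ 2 ∧ ‖E Q 4 z - E Q 1 z ^ 4‖ ≤ 23 * (ε * K ^ 4) ∧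
        ‖E Q 6 z - E Q 1 z ^ 6‖ ≤ 719 * (ε * K ^ 6)) ∧
      (‖E Q 2 z‖ ≤ 2 * K ^ 2 ∧ ‖E Q 3 z‖ ≤ 6 * K ^ 3 ∧ ‖E Q 4 z‖ ≤ 24 * K ^ 4 ∧
        ‖E Q 5 z‖ ≤ 120 * K ^ 5) := by
  obtain ⟨p, hp, h1, h2, h3, h4, h5, h6⟩ := exists_pw Q m hm z δ hδ hz
  refine ⟨by simpa [h1] using hp 1, ?_, ?_⟩
  · have : E Q 2 z - E Q 1 z ^ 2 = -p 2 := by rw [h2, h1]; ring
    rw [this, norm_neg]; exact hp 2
  · intro K ε hK hδK hε0 hε1 hmK
    have hK0 : 0 ≤ K := hδ.le.trans hδK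
    have b : ∀ j : ℕ, ‖p (j + 2)‖ ≤ ε * K ^ (j + 2) := by
      intro j
      refine (hp (j + 2)).trans ?_
      have : δ ^ j ≤ K ^ j := pow_le_pow_left₀ hδ.le hδK j
      calc (m : ℝ) * δ ^ (j + 2) = (m * δ ^ 2) * δ ^ j := by ring
        _ ≤ (ε * K ^ 2) * K ^ j := by gcongr
        _ = ε * K ^ (j + 2) := by ring
    rw [h1] at hK ⊢
    exact approx_aux p _ _ _ _ _ K ε hK0 hε0 hε1 hK (b 0) (b 1) (b 2) (b 3) (b 4) h2 h3 h4 h5 h6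

end Pool.Agent.P.MP_6deb90_an
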