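import Mathlib
import Pool.Agent.P.MP_6deb90_an.Newton

/-!
The reduction step: if a polynomial whose second derivative is a sum of two eigenfunctions of the
Hermite operator has no zero in a large disc, then neither has its image under the Hermite
operator shifted by the top eigenvalue, in a smaller disc.
-/

namespace Pool.Agent.P.MP_6deb90_an
open Polynomial

/-- The shifted Hermite operator. -/
noncomputable def Lop (A : ℂ) (P : ℂ[X]) : ℂ[X] :=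
  derivative (derivative P) - 2 * X * derivative P + C A * P

lemma Lop_add (A : ℂ) (P Q : ℂ[X]) : Lop A (P + Q) = Lop A P + Lop A Q := by
  simp only [Lop, derivative_add]; ring

lemma Lop_zero (A : ℂ) : Lop A 0 = 0 := by simp [Lop]

lemma Lop_shift (A B : ℂ) (P : ℂ[X]) : Lop B P = Lop A P + C (B - A) * P := by
  simp only [Lop, map_sub]; ring

lemma Lop_C_mul (A c : ℂ) (P : ℂ[X]) : Lop A (C c * P) = C c * Lop A P := by
  simp only [Lop, derivative_C_mul]; ring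

lemma Lop_Lop (A B : ℂ) (G : ℂ[X]) :
    Lop A (Lop B G) = derivative^[4] G - 4 * X * derivative^[3] G
      + (4 * X ^ 2 - 4 + C A + C B) * derivative^[2] G
      + (4 - 2 * C A - 2 * C B) * X * derivative^[1] G + C A * C B * G := by
  simp only [Lop, Function.iterate_succ_apply', Function.iterate_zero_apply, derivative_add,
    derivative_sub, derivative_mul, derivative_X, derivative_C, derivative_ofNat, derivative_zero,
    derivative_one]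
  ring

lemma eval_Lop (A : ℂ) (P : ℂ[X]) (z : ℂ) :
    eval z (Lop A P) = eval z (derivative^[2] P) - 2 * z * eval z (derivative^[1] P)
      + A * eval z P := by
  simp [Lop, Function.iterate_succ_apply']

lemma ode6 (Q U V : ℂ[X]) (A B : ℂ) (hQ : derivative^[2] Q = U + V) (hU : Lop A U = 0)
    (hV : Lop B V = 0) (z : ℂ) (hz : eval z Q ≠ 0) :
    E Q 6 z - 4 * z * E Q 5 z + (4 * z ^ 2 - 4 + A + B) * E Q 4 z
      + (4 - 2 * A - 2 * B) * z * E Q 3 z + A * B * E Q 2 z = 0 := by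
  have h : Lop A (Lop B (derivative^[2] Q)) = 0 := by
    rw [hQ, Lop_add, hV, add_zero, Lop_shift A B U, hU, zero_add, Lop_C_mul, hU, mul_zero]
  rw [Lop_Lop] at h
  have h' := congrArg (eval z) h
  simp only [← Function.iterate_add_apply, eval_add, eval_sub, eval_mul, eval_pow, eval_X, eval_C,
    eval_ofNat, eval_zero] at h'
  unfold E
  field_simp
  linear_combination h'

lemma sq_add_lower (w : ℂ) (A : ℝ) (hA : 0 ≤ A) (h : w.im ^ 2 / 4 ≤ |w.im ^ 2 - A|) :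
    ‖w‖ ^ 2 / 4 ≤ ‖w ^ 2 + A‖ := by
  have h1 : ‖w‖ ^ 2 = w.re ^ 2 + w.im ^ 2 := by
    rw [Complex.sq_norm, Complex.normSq_apply]; ring
  have h2 : ‖w ^ 2 + A‖ ^ 2 = (w.re ^ 2 - w.im ^ 2 + A) ^ 2 + (2 * w.re * w.im) ^ 2 := by
    rw [Complex.sq_norm, Complex.normSq_apply]
    simp [pow_two]
    ring_nf
  have h3 : (w.im ^ 2 / 4) ^ 2 ≤ (w.im ^ 2 - A) ^ 2 := by
    rw [← sq_abs (w.im ^ 2 - A)]
    exact pow_le_pow_left₀ (by positivity) h 2
  refine le_of_sq_le_sq ?_ (norm_nonneg _)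
  rw [h2, h1]
  nlinarith [sq_nonneg w.re, sq_nonneg w.im, mul_nonneg (sq_nonneg w.re) hA,
    mul_nonneg (sq_nonneg w.re) (sq_nonneg w.im), sq_nonneg (w.re ^ 2)]

/-- Quantisation: the imaginary part of the logarithmic derivative avoids a level. -/
lemma level_avoid (Q U V : ℂ[X]) (A μ s : ℝ) (m : ℕ) (hm : Q.natDegree ≤ m)
    (hQ : derivative^[2] Q = U + V) (hU : Lop A U = 0) (hV : Lop ((μ : ℂ) ^ 2) V = 0)
    (hA0 : 0 ≤ A) (hA : A ≤ μ ^ 2) (hmμ : (m : ℝ) ≤ μ ^ 2) (hs : 1 ≤ s)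
    (hsμ : 10 ^ 7 * s ≤ μ) (z : ℂ) (hz : ‖z‖ ≤ s)
    (hroot : ∀ r, eval r Q = 0 → (10 ^ 4 : ℝ) ≤ ‖z - r‖)
    (t : ℝ) (ht1 : μ / 2 ≤ t) (ht2 : t ≤ 3 * μ / 4) (htA : t ^ 2 / 4 ≤ |t ^ 2 - A|) :
    |(E Q 1 z).im| ≠ t := by
  intro him
  have hμ : 10 ^ 7 ≤ μ := by nlinarith
  have hQz : eval z Q ≠ 0 := by
    intro h
    have := hroot z h
    simp at this
    norm_num at this
  have hode := ode6 Q U V A ((μ : ℂ) ^ 2) hQ hU hV z hQz
  obtain ⟨-, -, happ⟩ := approx Q m hm z (1 / 10 ^ 4) (by norm_num) (by simpa using hroot)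
  set w := E Q 1 z with hw
  set K := ‖w‖ with hK
  have him2 : w.im ^ 2 = t ^ 2 := by rw [← him, sq_abs]
  have hKt : t ≤ K := by rw [← him]; exact Complex.abs_im_le_norm w
  have hKμ : μ ≤ 2 * K := by linarith
  have hKpos : 0 < K := by linarith
  have hμK : μ ^ 2 ≤ 4 * K ^ 2 := by nlinarith
  obtain ⟨⟨d2, d4, d6⟩, t2, t3, t4, t5⟩ := happ K (4 / 10 ^ 8) le_rfl (by linarith) (by norm_num)
    (by norm_num) (by nlinarith)
  have l1 : K ^ 2 / 4 ≤ ‖w ^ 2 + A‖ := sq_add_lower w A hA0 (by rw [him2]; exact htA)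
  have l2 : K ^ 2 / 4 ≤ ‖w ^ 2 + ((μ ^ 2 : ℝ) : ℂ)‖ := by
    apply sq_add_lower w (μ ^ 2) (by positivity)
    rw [him2, abs_sub_comm]
    refine le_trans ?_ (le_abs_self _)
    nlinarith
  have l3 : K ^ 6 / 16 ≤ ‖w ^ 2 * (w ^ 2 + A) * (w ^ 2 + ((μ ^ 2 : ℝ) : ℂ))‖ := by
    rw [norm_mul, norm_mul, norm_pow]
    calc K ^ 6 / 16 = K ^ 2 * (K ^ 2 / 4) * (K ^ 2 / 4) := by ring
      _ ≤ _ := by gcongr
  have e : w ^ 2 * (w ^ 2 + A) * (w ^ 2 + ((μ ^ 2 : ℝ) : ℂ))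
      = -(E Q 6 z - w ^ 6) - ((A + μ ^ 2 : ℝ) : ℂ) * (E Q 4 z - w ^ 4)
        - ((A * μ ^ 2 : ℝ) : ℂ) * (E Q 2 z - w ^ 2) + 4 * z * E Q 5 z
        - (4 * z ^ 2 - 4) * E Q 4 z - ((4 - 2 * A - 2 * μ ^ 2 : ℝ) : ℂ) * z * E Q 3 z := by
    push_cast
    linear_combination hode
  have hzK : ‖z‖ ≤ 2 / 10 ^ 7 * K := by linarith
  have h1K : (1 : ℝ) ≤ 2 / 10 ^ 7 * K := by linarith
  have n1 : ‖((A + μ ^ 2 : ℝ) : ℂ)‖ ≤ 8 * K ^ 2 := by
    rw [Complex.norm_real, Real.norm_eq_abs, abs_of_nonneg (by positivity)]; linarith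
  have n2 : ‖((A * μ ^ 2 : ℝ) : ℂ)‖ ≤ 16 * K ^ 4 := by
    rw [Complex.norm_real, Real.norm_eq_abs, abs_of_nonneg (by positivity)]
    calc A * μ ^ 2 ≤ (4 * K ^ 2) * (4 * K ^ 2) := by
          gcongr; linarith
      _ = 16 * K ^ 4 := by ring
  have n3 : ‖(4 : ℂ) * z‖ ≤ 8 / 10 ^ 7 * K := by
    rw [norm_mul]; simp only [Complex.norm_ofNat]; linarith
  have n4 : ‖(4 * z ^ 2 - 4 : ℂ)‖ ≤ 1 / 10 ^ 7 * K ^ 2 := by
    have a1 : ‖(4 * z ^ 2 : ℂ)‖ ≤ 4 * (2 / 10 ^ 7 * K) ^ 2 := by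
      rw [norm_mul, norm_pow]; simp only [Complex.norm_ofNat]; gcongr
    have a2 : ‖(4 : ℂ)‖ ≤ 4 * (2 / 10 ^ 7 * K) ^ 2 := by
      simp only [Complex.norm_ofNat]; nlinarith
    have := norm_sub_le_of_le a1 a2
    nlinarith
  have n5 : ‖((4 - 2 * A - 2 * μ ^ 2 : ℝ) : ℂ)‖ ≤ 16 * K ^ 2 := by
    rw [Complex.norm_real, Real.norm_eq_abs, abs_le]
    have hK1 : 1 ≤ K := by linarith
    have hK2 : 1 ≤ K ^ 2 := one_le_pow₀ hK1
    have : 4 ≤ μ ^ 2 := by nlinarith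
    constructor <;> linarith
  have u : ‖w ^ 2 * (w ^ 2 + A) * (w ^ 2 + ((μ ^ 2 : ℝ) : ℂ))‖ ≤ K ^ 6 / 20 := by
    rw [e]
    have d6' : ‖-(E Q 6 z - w ^ 6)‖ ≤ 719 * (4 / 10 ^ 8 * K ^ 6) := by rwa [norm_neg]
    refine (norm_sub_le_of_le (norm_sub_le_of_le (norm_add_le_of_le (norm_sub_le_of_le
      (norm_sub_le_of_le d6' (norm_mul_le_of_le n1 d4)) (norm_mul_le_of_le n2 d2))
      (norm_mul_le_of_le n3 t5)) (norm_mul_le_of_le n4 t4))
      (norm_mul_le_of_le (norm_mul_le_of_le n5 hzK) t3)).trans ?_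
    have : 0 < K ^ 6 := by positivity
    nlinarith
  have : 0 < K ^ 6 := by positivity
  linarith

/-- Growth along a segment when the logarithmic derivative has a definite direction. -/
lemma growth (Q : ℂ[X]) (c : ℂ) (μ : ℝ)
    (hne : ∀ y : ℝ, y ∈ Set.Icc (-1 : ℝ) 1 → eval (c * y) Q ≠ 0)
    (h : ∀ y : ℝ, y ∈ Set.Icc (-1 : ℝ) 1 → μ / 2 ≤ (c * E Q 1 (c * y)).re) :
    Real.exp μ * ‖eval (-c) Q‖ ≤ ‖eval c Q‖ := by
  set f : ℝ → ℂ := fun y => eval (c * y) Q * Complex.exp (-(μ / 2) * y) with hf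
  have hd : ∀ y : ℝ, HasDerivAt f
      ((c * eval (c * y) (derivative Q) - (μ / 2) * eval (c * y) Q)
        * Complex.exp (-(μ / 2) * y)) y := by
    intro y
    have a1 : HasDerivAt (fun u : ℂ => eval (c * u) Q * Complex.exp (-(μ / 2) * u))
        ((c * eval (c * y) (derivative Q) - (μ / 2) * eval (c * y) Q)
          * Complex.exp (-(μ / 2) * y)) (y : ℂ) := by
      have b1 : HasDerivAt (fun u : ℂ => c * u) c (y : ℂ) := by
        simpa using (hasDerivAt_id (y : ℂ)).const_mul c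
      have b2 := (Q.hasDerivAt (c * y)).comp (y : ℂ) b1
      have b3 : HasDerivAt (fun u : ℂ => -((μ : ℂ) / 2) * u) (-((μ : ℂ) / 2)) (y : ℂ) := by
        simpa using (hasDerivAt_id (y : ℂ)).const_mul (-((μ : ℂ) / 2))
      have b4 := b2.mul b3.cexp
      refine b4.congr_deriv ?_
      simp only [Function.comp]
      ring
    exact a1.comp_ofReal
  have hg : ∀ y : ℝ, HasDerivAt (fun y => ‖f y‖ ^ 2)
      (2 * inner ℝ (f y) ((c * eval (c * y) (derivative Q) - (μ / 2) * eval (c * y) Q)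
        * Complex.exp (-(μ / 2) * y))) y := fun y => (hd y).norm_sq
  have hmono : MonotoneOn (fun y => ‖f y‖ ^ 2) (Set.Icc (-1 : ℝ) 1) := by
    apply monotoneOn_of_deriv_nonneg (convex_Icc _ _)
    · exact fun y _ => (hg y).continuousAt.continuousWithinAt
    · exact fun y _ => (hg y).differentiableAt.differentiableWithinAt
    · intro y hy
      have hy' : y ∈ Set.Icc (-1 : ℝ) 1 := interior_subset hy
      rw [(hg y).deriv]
      have e1 : (c * eval (c * y) (derivative Q) - (μ / 2) * eval (c * y) Q)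
          * Complex.exp (-(μ / 2) * y) = (c * E Q 1 (c * y) - μ / 2) * f y := by
        have := hne y hy'
        simp only [hf, E, Function.iterate_one]
        field_simp
      rw [e1]
      have e2 : ∀ a b : ℂ, inner ℝ a (b * a) = b.re * (a.re ^ 2 + a.im ^ 2) := by
        intro a b
        simp [Complex.inner]
        ring
      rw [e2]
      have e3 : (c * E Q 1 (c * y) - (μ : ℂ) / 2).re = (c * E Q 1 (c * y)).re - μ / 2 := by
        simp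
      rw [e3]
      have := h y hy'
      have : 0 ≤ (c * E Q 1 (c * y)).re - μ / 2 := by linarith
      positivity
  have hm := hmono (a := -1) (b := 1) (by simp) (by simp) (by norm_num)
  have hm' : ‖f (-1)‖ ≤ ‖f 1‖ := le_of_sq_le_sq hm (norm_nonneg _)
  simp only [hf, norm_mul, Complex.norm_exp] at hm'
  have r1 : (-((μ : ℂ) / 2) * ((-1 : ℝ) : ℂ)).re = μ / 2 := by simp
  have r2 : (-((μ : ℂ) / 2) * ((1 : ℝ) : ℂ)).re = -(μ / 2) := by simp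
  rw [r1, r2] at hm'
  simp only [Complex.ofReal_neg, Complex.ofReal_one, mul_neg, mul_one] at hm'
  have e : Real.exp μ = Real.exp (μ / 2) * Real.exp (μ / 2) := by
    rw [← Real.exp_add]; ring_nf
  have e' : Real.exp (-(μ / 2)) * Real.exp (μ / 2) = 1 := by
    rw [← Real.exp_add]; simp
  have hp := Real.exp_pos (μ / 2)
  calc Real.exp μ * ‖eval (-c) Q‖ = (‖eval (-c) Q‖ * Real.exp (μ / 2)) * Real.exp (μ / 2) := by
        rw [e]; ring
    _ ≤ (‖eval c Q‖ * Real.exp (-(μ / 2))) * Real.exp (μ / 2) := by gcongr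
    _ = ‖eval c Q‖ := by rw [mul_assoc, e', mul_one]

lemma E_mul (Q : ℂ[X]) (j : ℕ) (z : ℂ) (hz : eval z Q ≠ 0) :
    eval z (derivative^[j] Q) = E Q j z * eval z Q := by
  unfold E; field_simp

lemma start_level (w e z : ℂ) (μ s : ℝ) (m : ℝ) (hμm : μ ^ 2 = 2 * m - 4) (hmμ : m ≤ μ ^ 2)
    (hs : 1 ≤ s) (hsμ : 10 ^ 7 * s ≤ μ) (hz : ‖z‖ ≤ s)
    (he : ‖e - w ^ 2‖ ≤ m * (1 / 10 ^ 4) ^ 2) (h : e - 2 * z * w + 2 * m = 0) :
    3 * μ / 4 ≤ |w.im| := by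
  have hμ : 10 ^ 7 ≤ μ := by nlinarith
  have h1 : ‖w‖ ^ 2 = w.re ^ 2 + w.im ^ 2 := by
    rw [Complex.sq_norm, Complex.normSq_apply]; ring
  have h2 : w ^ 2 + 2 * m = -(e - w ^ 2) + 2 * z * w := by linear_combination h
  have h3 : (w ^ 2 + 2 * m : ℂ).re = w.re ^ 2 - w.im ^ 2 + 2 * m := by
    simp [pow_two]
  have h4 : (w ^ 2 + 2 * m : ℂ).re ≤ m * (1 / 10 ^ 4) ^ 2 + 2 * s * ‖w‖ := by
    refine (Complex.re_le_norm _).trans ?_
    rw [h2]
    have a1 : ‖-(e - w ^ 2)‖ ≤ m * (1 / 10 ^ 4) ^ 2 := by rwa [norm_neg]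
    have a2 : ‖2 * z * w‖ ≤ 2 * s * ‖w‖ := by
      rw [norm_mul, norm_mul]; simp only [Complex.norm_ofNat]; gcongr
    exact norm_add_le_of_le a1 a2
  have h5 : 2 * s * ‖w‖ ≤ (μ ^ 2 + ‖w‖ ^ 2) / 10 ^ 7 := by
    have a1 : s * ‖w‖ ≤ μ / 10 ^ 7 * ‖w‖ := by
      gcongr; linarith
    nlinarith [sq_nonneg (μ - ‖w‖)]
  refine le_of_sq_le_sq ?_ (abs_nonneg _)
  rw [sq_abs]
  nlinarith [sq_nonneg w.re, sq_nonneg w.im, sq_nonneg μ]

lemma part_bound (Q U V : ℂ[X]) (A B : ℝ) (m : ℕ) (hm : Q.natDegree ≤ m) (hm1 : 1 ≤ m)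
    (hQ : derivative^[2] Q = U + V) (hU : Lop A U = 0) (hV : Lop B V = 0)
    (hB : |B| ≤ 2 * m) (hAB : 2 ≤ |B - A|) (z : ℂ) (hz : ‖z‖ ≤ 1)
    (hroot : ∀ r, eval r Q = 0 → (10 ^ 4 : ℝ) ≤ ‖z - r‖) :
    ‖eval z U‖ ≤ 20 * m ^ 4 * ‖eval z Q‖ := by
  have hQz : eval z Q ≠ 0 := by
    intro h
    have := hroot z h
    simp at this
    norm_num at this
  have hm1' : (1 : ℝ) ≤ m := by exact_mod_cast hm1
  obtain ⟨h1, -, happ⟩ := approx Q m hm z (1 / 10 ^ 4) (by norm_num) (by simpa using hroot)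
  obtain ⟨-, t2, t3, t4, -⟩ := happ m 1 (by linarith) (by linarith) (by norm_num) le_rfl
    (by nlinarith)
  have e1 : Lop B (derivative^[2] Q) = C ((B : ℂ) - A) * U := by
    rw [hQ, Lop_add, hV, add_zero, Lop_shift A B U, hU, zero_add]
  have e2 := congrArg (eval z) e1
  rw [eval_Lop] at e2
  simp only [← Function.iterate_add_apply, eval_mul, eval_C] at e2
  rw [E_mul Q _ z hQz, E_mul Q _ z hQz, E_mul Q _ z hQz] at e2
  have e3 : ((B - A : ℝ) : ℂ) * eval z U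
      = (E Q 4 z - 2 * z * E Q 3 z + (B : ℂ) * E Q 2 z) * eval z Q := by
    push_cast
    linear_combination -e2
  have e4 := congrArg norm e3
  rw [norm_mul, norm_mul, Complex.norm_real, Real.norm_eq_abs] at e4
  have n1 : ‖(2 : ℂ) * z‖ ≤ 2 := by
    rw [norm_mul]; simp only [Complex.norm_ofNat]; linarith
  have n2 : ‖(B : ℂ)‖ ≤ 2 * m := by rwa [Complex.norm_real, Real.norm_eq_abs]
  have n3 : ‖E Q 4 z - 2 * z * E Q 3 z + (B : ℂ) * E Q 2 z‖ ≤ 40 * m ^ 4 := by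
    refine (norm_add_le_of_le (norm_sub_le_of_le t4 (norm_mul_le_of_le n1 t3))
      (norm_mul_le_of_le n2 t2)).trans ?_
    have : (m : ℝ) ^ 3 ≤ m ^ 4 := pow_le_pow_right₀ hm1' (by norm_num)
    nlinarith
  have n4 : 2 * ‖eval z U‖ ≤ |B - A| * ‖eval z U‖ := by gcongr
  have n5 : ‖E Q 4 z - 2 * z * E Q 3 z + (B : ℂ) * E Q 2 z‖ * ‖eval z Q‖
      ≤ 40 * m ^ 4 * ‖eval z Q‖ := by gcongr
  linarith

lemma large_case (Q U V : ℂ[X]) (A s : ℝ) (m : ℕ) (hm : Q.natDegree ≤ m)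
    (hQ : derivative^[2] Q = U + V) (hU : Lop A U = 0) (hV : Lop (2 * m - 4) V = 0)
    (hA0 : 0 ≤ A) (hA : A + 2 ≤ 2 * m - 4) (hs : 1 ≤ s) (hms : 10 ^ 14 * s ^ 2 ≤ m)
    (hUs : ‖eval Complex.I U‖ = ‖eval (-Complex.I) U‖)
    (hVs : ‖eval Complex.I V‖ = ‖eval (-Complex.I) V‖)
    (hroot : ∀ r, eval r Q = 0 → s + 10 ^ 4 ≤ ‖r‖) (z0 : ℂ) (hz0 : ‖z0‖ ≤ s) :
    eval z0 (Lop (2 * m) Q) ≠ 0 := by
  intro hzero
  have hs2 : 1 ≤ s ^ 2 := one_le_pow₀ hs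
  have hm14 : (10 : ℝ) ^ 14 ≤ m := by nlinarith
  set μ : ℝ := Real.sqrt (2 * m - 4) with hμdef
  have hμ0 : 0 ≤ μ := Real.sqrt_nonneg _
  have hμ2 : μ ^ 2 = 2 * m - 4 := Real.sq_sqrt (by linarith)
  have hmμ : (m : ℝ) ≤ μ ^ 2 := by linarith
  have hsμ : 10 ^ 7 * s ≤ μ := le_of_sq_le_sq (by nlinarith) hμ0
  have hμ : 10 ^ 7 ≤ μ := by nlinarith
  have hV' : Lop ((μ : ℂ) ^ 2) V = 0 := by
    have : ((μ : ℂ) ^ 2) = 2 * m - 4 := by exact_mod_cast congrArg (fun x : ℝ => (x : ℂ)) hμ2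
    rwa [this]
  have hV'' : Lop ((2 * m - 4 : ℝ) : ℂ) V = 0 := by
    push_cast; exact hV
  have hroot' : ∀ z : ℂ, ‖z‖ ≤ s → ∀ r, eval r Q = 0 → (10 ^ 4 : ℝ) ≤ ‖z - r‖ := by
    intro z hz r hr
    have a1 := hroot r hr
    have a2 : ‖r‖ - ‖z‖ ≤ ‖z - r‖ := by
      rw [norm_sub_rev]; exact norm_sub_norm_le r z
    linarith
  have hne : ∀ z : ℂ, ‖z‖ ≤ s → eval z Q ≠ 0 := by
    intro z hz h
    have := hroot z h
    linarith
  obtain ⟨t, ht1, ht2, htA⟩ : ∃ t : ℝ, μ / 2 ≤ t ∧ t ≤ 3 * μ / 4 ∧ t ^ 2 / 4 ≤ |t ^ 2 - A| := by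
    by_cases h : A ≤ 27 / 64 * μ ^ 2
    · refine ⟨3 * μ / 4, by linarith, le_rfl, le_trans ?_ (le_abs_self _)⟩
      nlinarith
    · refine ⟨μ / 2, le_rfl, by linarith, ?_⟩
      rw [abs_sub_comm]
      refine le_trans ?_ (le_abs_self _)
      nlinarith
  have havoid : ∀ z : ℂ, ‖z‖ ≤ s → |(E Q 1 z).im| ≠ t := fun z hz =>
    level_avoid Q U V A μ s m hm hQ hU hV' hA0 (by linarith) hmμ hs hsμ z hz (hroot' z hz) t ht1
      ht2 htA
  have hstart : 3 * μ / 4 ≤ |(E Q 1 z0).im| := by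
    obtain ⟨-, h2, -⟩ := approx Q m hm z0 (1 / 10 ^ 4) (by norm_num)
      (by simpa using hroot' z0 hz0)
    refine start_level (E Q 1 z0) (E Q 2 z0) z0 μ s m hμ2 hmμ hs hsμ hz0 h2 ?_
    rw [eval_Lop, E_mul Q _ z0 (hne z0 hz0), E_mul Q _ z0 (hne z0 hz0)] at hzero
    have : (E Q 2 z0 - 2 * z0 * E Q 1 z0 + 2 * m) * eval z0 Q = 0 := by
      linear_combination hzero
    exact (mul_eq_zero.mp this).resolve_right (hne z0 hz0)
  obtain ⟨σ, hσ, hσ0⟩ : ∃ σ : ℝ, (σ = 1 ∨ σ = -1) ∧ 3 * μ / 4 ≤ σ * (E Q 1 z0).im := by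
    rcases le_total 0 (E Q 1 z0).im with h | h
    · exact ⟨1, Or.inl rfl, by rwa [abs_of_nonneg h, ← one_mul (E Q 1 z0).im] at hstart⟩
    · exact ⟨-1, Or.inr rfl, by rwa [abs_of_nonpos h, ← neg_one_mul (E Q 1 z0).im] at hstart⟩
  have hcont : ContinuousOn (fun z => σ * (E Q 1 z).im) (Metric.closedBall (0 : ℂ) s) := by
    refine continuousOn_const.mul (Complex.continuous_im.comp_continuousOn ?_)
    unfold E
    refine ContinuousOn.div (Polynomial.continuous _).continuousOn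
      (Polynomial.continuous _).continuousOn ?_
    intro z hz
    exact hne z (by simpa using hz)
  have hall : ∀ z : ℂ, ‖z‖ ≤ s → μ / 2 ≤ σ * (E Q 1 z).im := by
    intro z hz
    by_contra hlt
    have hlt' : σ * (E Q 1 z).im < μ / 2 := not_le.mp hlt
    have hpre : IsPreconnected (Metric.closedBall (0 : ℂ) s) :=
      (convex_closedBall _ _).isPreconnected
    have := hpre.intermediate_value (a := z) (b := z0) (by simpa using hz) (by simpa using hz0)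
      hcont (show t ∈ Set.Icc _ _ from ⟨by linarith, by linarith⟩)
    obtain ⟨z2, hz2, h2⟩ := this
    apply havoid z2 (by simpa using hz2)
    simp only at h2
    rcases hσ with rfl | rfl
    · rw [abs_of_nonneg (by linarith)]; linarith
    · rw [abs_of_nonpos (by linarith)]; linarith
  set c : ℂ := -(σ : ℂ) * Complex.I with hc
  have hcn : ‖c‖ = 1 := by
    rcases hσ with rfl | rfl <;> simp [hc]
  have hcy : ∀ y : ℝ, y ∈ Set.Icc (-1 : ℝ) 1 → ‖c * y‖ ≤ s := by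
    intro y hy
    rw [norm_mul, hcn, one_mul, Complex.norm_real, Real.norm_eq_abs]
    exact (abs_le.mpr hy).trans hs
  have hgrow := growth Q c μ (fun y hy => hne _ (hcy y hy)) (by
    intro y hy
    have := hall _ (hcy y hy)
    have e : ∀ w : ℂ, (c * w).re = σ * w.im := by
      intro w; simp [hc]
    rwa [e])
  have hcs : ‖c‖ ≤ s := by rw [hcn]; exact hs
  have hcs' : ‖-c‖ ≤ s := by rwa [norm_neg]
  have hlow : ‖eval c Q‖ ≤ ‖eval c (derivative^[2] Q)‖ := by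
    obtain ⟨-, h2, -⟩ := approx Q m hm c (1 / 10 ^ 4) (by norm_num)
      (by simpa using hroot' c hcs)
    have a1 : μ / 2 ≤ ‖E Q 1 c‖ := by
      refine (hall c hcs).trans (le_trans ?_ (Complex.abs_im_le_norm _))
      rcases hσ with rfl | rfl
      · rw [one_mul]; exact le_abs_self _
      · rw [neg_one_mul]; exact neg_le_abs _
    have a2 : ‖E Q 1 c ^ 2‖ - ‖E Q 2 c‖ ≤ ‖E Q 2 c - E Q 1 c ^ 2‖ := by
      rw [norm_sub_rev]; exact norm_sub_norm_le _ _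
    rw [norm_pow] at a2
    have a3 : (μ / 2) ^ 2 ≤ ‖E Q 1 c‖ ^ 2 := pow_le_pow_left₀ (by linarith) a1 2
    have a4 : 1 ≤ ‖E Q 2 c‖ := by nlinarith
    rw [E_mul Q _ c (hne c hcs), norm_mul]
    exact le_mul_of_one_le_left (norm_nonneg _) a4
  have hm1 : 1 ≤ m := by
    have : (1 : ℝ) ≤ m := by linarith
    exact_mod_cast this
  have hUb := part_bound Q U V A (2 * m - 4) m hm hm1 hQ hU hV''
    (by rw [abs_le]; constructor <;> linarith) (le_trans (by linarith) (le_abs_self _)) (-c)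
    (by rw [norm_neg, hcn]) (hroot' _ hcs')
  have hVb := part_bound Q V U (2 * m - 4) A m hm hm1 (by rw [hQ, add_comm]) hV'' hU
    (by rw [abs_le]; constructor <;> linarith)
    (by rw [abs_sub_comm]; exact le_trans (by linarith) (le_abs_self _)) (-c)
    (by rw [norm_neg, hcn]) (hroot' _ hcs')
  have hUc : ‖eval c U‖ = ‖eval (-c) U‖ := by
    rcases hσ with rfl | rfl
    · simpa [hc] using hUs.symm
    · simpa [hc] using hUs
  have hVc : ‖eval c V‖ = ‖eval (-c) V‖ := by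
    rcases hσ with rfl | rfl
    · simpa [hc] using hVs.symm
    · simpa [hc] using hVs
  have hup : ‖eval c (derivative^[2] Q)‖ ≤ 40 * m ^ 4 * ‖eval (-c) Q‖ := by
    rw [hQ, eval_add]
    refine (norm_add_le _ _).trans ?_
    rw [hUc, hVc]
    linarith
  have hpos : 0 < ‖eval (-c) Q‖ := norm_pos_iff.mpr (hne _ hcs')
  have hexp : Real.exp μ ≤ 40 * m ^ 4 := by
    have : Real.exp μ * ‖eval (-c) Q‖ ≤ 40 * m ^ 4 * ‖eval (-c) Q‖ := by linarith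
    exact le_of_mul_le_mul_right this hpos
  have hexp2 := Real.pow_div_factorial_le_exp μ hμ0 10
  have f10 : ((Nat.factorial 10 : ℕ) : ℝ) = 3628800 := by norm_num [Nat.factorial]
  rw [f10] at hexp2
  have b1 : (m : ℝ) ^ 5 ≤ μ ^ 10 := by
    calc (m : ℝ) ^ 5 ≤ (μ ^ 2) ^ 5 := by gcongr
      _ = μ ^ 10 := by ring
  have b2 : (0 : ℝ) < (m : ℝ) ^ 4 := by positivity
  have b3 : (m : ℝ) ^ 5 = m * m ^ 4 := by ring
  have b4 : 10 ^ 14 * (m : ℝ) ^ 4 ≤ m * m ^ 4 := by gcongr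
  linarith

lemma small_case (Q : ℂ[X]) (s : ℝ) (m : ℕ) (hm : Q.natDegree ≤ m) (hm1 : 1 ≤ m) (hs : 1 ≤ s)
    (hms : (m : ℝ) ≤ 10 ^ 14 * s ^ 2)
    (hroot : ∀ r, eval r Q = 0 → s + 2 * 10 ^ 7 * s ≤ ‖r‖) (z0 : ℂ) (hz0 : ‖z0‖ ≤ s) :
    eval z0 (Lop (2 * m) Q) ≠ 0 := by
  intro hzero
  have hm1' : (1 : ℝ) ≤ m := by exact_mod_cast hm1
  have hne : eval z0 Q ≠ 0 := by
    intro h
    have := hroot z0 h
    linarith
  set δ : ℝ := (2 * 10 ^ 7 * s)⁻¹ with hδ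
  have hδ0 : 0 < δ := by positivity
  have hδs : δ * s = 1 / (2 * 10 ^ 7) := by
    rw [hδ]; field_simp
  obtain ⟨h1, h2, -⟩ := approx Q m hm z0 δ hδ0 (by
    intro r hr
    have a1 := hroot r hr
    have a2 : ‖r‖ - ‖z0‖ ≤ ‖z0 - r‖ := by
      rw [norm_sub_rev]; exact norm_sub_norm_le r z0
    rw [hδ, inv_inv]
    linarith)
  rw [eval_Lop, E_mul Q _ z0 hne, E_mul Q _ z0 hne] at hzero
  have e1 : (E Q 2 z0 - 2 * z0 * E Q 1 z0 + 2 * m) * eval z0 Q = 0 := by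
    linear_combination hzero
  have e2 := (mul_eq_zero.mp e1).resolve_right hne
  have e3 : (2 * m : ℂ) = -(E Q 2 z0 - E Q 1 z0 ^ 2) - E Q 1 z0 ^ 2 + 2 * z0 * E Q 1 z0 := by
    linear_combination e2
  have n0 : ‖(2 * m : ℂ)‖ = 2 * m := by simp
  have n1 : ‖-(E Q 2 z0 - E Q 1 z0 ^ 2)‖ ≤ m * δ ^ 2 := by rwa [norm_neg]
  have n2 : ‖E Q 1 z0 ^ 2‖ ≤ (m * δ) ^ 2 := by
    rw [norm_pow]; gcongr
  have n3 : ‖(2 : ℂ) * z0‖ ≤ 2 * s := by
    rw [norm_mul]; simp only [Complex.norm_ofNat]; linarith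
  have n4 := norm_add_le_of_le (norm_sub_le_of_le n1 n2) (norm_mul_le_of_le n3 h1)
  rw [← e3, n0] at n4
  have c1 : m * δ ^ 2 ≤ 1 / 4 := by
    calc m * δ ^ 2 ≤ 10 ^ 14 * s ^ 2 * δ ^ 2 := by gcongr
      _ = 10 ^ 14 * (δ * s) ^ 2 := by ring
      _ = 1 / 4 := by rw [hδs]; norm_num
  have c2 : (m * δ) ^ 2 ≤ m * (1 / 4) := by
    have a1 : ((m : ℝ) * δ) ^ 2 = (m : ℝ) * (m * δ ^ 2) := by ring
    rw [a1]
    gcongr
  have c3 : 2 * s * (m * δ) = m * (1 / 10 ^ 7) := by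
    calc 2 * s * (m * δ) = 2 * m * (δ * s) := by ring
      _ = m * (1 / 10 ^ 7) := by rw [hδs]; ring
  linarith

/-- The reduction step. -/
lemma reduce (Q U V : ℂ[X]) (A s : ℝ) (m : ℕ) (hm : Q.natDegree ≤ m) (hm1 : 1 ≤ m)
    (hQ : derivative^[2] Q = U + V) (hU : Lop A U = 0) (hV : Lop (2 * m - 4) V = 0)
    (hA0 : 0 ≤ A) (hA : 3 ≤ m → A + 2 ≤ 2 * m - 4) (hs : 1 ≤ s)
    (hUs : ‖eval Complex.I U‖ = ‖eval (-Complex.I) U‖)
    (hVs : ‖eval Complex.I V‖ = ‖eval (-Complex.I) V‖)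
    (hroot : ∀ r : ℂ, ‖r‖ ≤ 3 * 10 ^ 7 * s → eval r Q ≠ 0) (z0 : ℂ) (hz0 : ‖z0‖ ≤ s) :
    eval z0 (Lop (2 * m) Q) ≠ 0 := by
  have hroot' : ∀ r, eval r Q = 0 → 3 * 10 ^ 7 * s ≤ ‖r‖ := by
    intro r hr
    by_contra h
    exact hroot r (not_le.mp h).le hr
  rcases le_total (m : ℝ) (10 ^ 14 * s ^ 2) with h | h
  · exact small_case Q s m hm hm1 hs h (fun r hr => le_trans (by linarith) (hroot' r hr)) z0 hz0
  · have hs2 : 1 ≤ s ^ 2 := one_le_pow₀ hs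
    have h3 : 3 ≤ m := by
      have : (3 : ℝ) ≤ m := by nlinarith
      exact_mod_cast this
    exact large_case Q U V A s m hm hQ hU hV hA0 (hA h3) hs h hUs hVs
      (fun r hr => le_trans (by linarith) (hroot' r hr)) z0 hz0

end Pool.Agent.P.MP_6deb90_an
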