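import Mathlib
import Pool.Agent.P.MP_6deb90_an.Reduce

/-!
Hermite polynomials in the physicists' normalisation, and the zero of a Hermite quadrinomial in a
disc of absolute radius.
-/

namespace Pool.Agent.P.MP_6deb90_an
open Polynomial

/-- Hermite polynomials, physicists' normalisation. -/
noncomputable def Hp : ℕ → ℂ[X]
  | 0 => 1
  | k + 1 => 2 * X * Hp k - derivative (Hp k)

lemma Hp_succ (k : ℕ) : Hp (k + 1) = 2 * X * Hp k - derivative (Hp k) := rfl

lemma Lop_Hp (k : ℕ) : Lop (2 * k) (Hp k) = 0 := by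
  induction k with
  | zero => simp [Lop, Hp]
  | succ k ih =>
    have h := congrArg derivative ih
    simp only [Lop, Hp_succ, derivative_add, derivative_sub, derivative_mul, derivative_X,
      derivative_C, derivative_ofNat, derivative_zero, derivative_one, map_mul, map_add, map_one,
      Nat.cast_add, Nat.cast_one, map_ofNat] at ih h ⊢
    linear_combination (2 * X) * ih - h

lemma natDegree_Hp (k : ℕ) : (Hp k).natDegree ≤ k := by
  induction k with
  | zero => simp [Hp]
  | succ k ih =>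
    rw [Hp_succ]
    refine (natDegree_sub_le _ _).trans (max_le ?_ ?_)
    · refine natDegree_mul_le.trans ?_
      have : (2 * X : ℂ[X]).natDegree ≤ 1 := by compute_degree
      omega
    · have := natDegree_derivative_le (Hp k)
      omega

lemma map_conj_Hp (k : ℕ) : (Hp k).map (starRingEnd ℂ) = Hp k := by
  induction k with
  | zero => simp [Hp]
  | succ k ih =>
    rw [Hp_succ, Polynomial.map_sub, Polynomial.map_mul, Polynomial.map_mul, ← derivative_map, ih]
    simp

lemma norm_eval_I (P : ℂ[X]) (h : P.map (starRingEnd ℂ) = P) :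
    ‖eval Complex.I P‖ = ‖eval (-Complex.I) P‖ := by
  have : eval (-Complex.I) P = (starRingEnd ℂ) (eval Complex.I P) := by
    conv_lhs => rw [← h, ← Complex.conj_I]
    rw [eval_map, eval₂_at_apply]
  rw [this, Complex.norm_conj]

lemma sym_Hp (a : ℂ) (k : ℕ) :
    ‖eval Complex.I (C a * derivative^[2] (Hp k))‖
      = ‖eval (-Complex.I) (C a * derivative^[2] (Hp k))‖ := by
  have : (derivative^[2] (Hp k)).map (starRingEnd ℂ) = derivative^[2] (Hp k) := by
    rw [← iterate_derivative_map, map_conj_Hp]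
  simp only [eval_mul, eval_C, norm_mul, norm_eval_I _ this]

lemma Lop_deriv2 (A : ℂ) (P : ℂ[X]) :
    Lop (A - 4) (derivative^[2] P) = derivative^[2] (Lop A P) := by
  simp only [Lop, Function.iterate_succ_apply', Function.iterate_zero_apply, derivative_add,
    derivative_sub, derivative_mul, derivative_X, derivative_C, derivative_ofNat, derivative_zero,
    derivative_one, map_sub, map_ofNat]
  ring

lemma Lop_deriv2_Hp (a : ℂ) (k : ℕ) :
    Lop (2 * k - 4) (C a * derivative^[2] (Hp k)) = 0 := by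
  rw [Lop_C_mul, Lop_deriv2, Lop_Hp]
  simp

lemma Lop_lin (A α β : ℂ) : Lop A (C α + C β * X) = C (A * α) + C ((A - 2) * β) * X := by
  simp only [Lop, derivative_add, derivative_mul, derivative_X, derivative_C, derivative_zero,
    derivative_one, map_mul, map_sub, map_ofNat]
  ring

lemma deriv2_lin (α β : ℂ) : derivative^[2] (C α + C β * X) = 0 := by
  simp [Function.iterate_succ_apply']

lemma natDegree_lin (α β : ℂ) : (C α + C β * X).natDegree ≤ 1 := by compute_degree

/-- A Hermite quadrinomial has a zero in a disc of absolute radius. -/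
theorem quad_zero (n m : ℕ) (hn : 2 ≤ n) (hnm : n < m) (a b : ℂ) :
    ∃ z : ℂ, ‖z‖ ≤ 3 * 10 ^ 7 * (3 * 10 ^ 7 * 2) ∧
      eval z (C 1 + C 2 * X + C a * Hp n + C b * Hp m) = 0 := by
  by_contra hcon
  push Not at hcon
  have hn' : (2 : ℝ) ≤ n := by exact_mod_cast hn
  have hnm' : (n : ℝ) + 1 ≤ m := by exact_mod_cast hnm
  have d0 : (C 1 + C 2 * X + C a * Hp n + C b * Hp m : ℂ[X]).natDegree ≤ m := by
    refine (natDegree_add_le _ _).trans (max_le ((natDegree_add_le _ _).trans (max_le ?_ ?_)) ?_)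
    · exact (natDegree_lin _ _).trans (by omega)
    · exact (natDegree_C_mul_le _ _).trans ((natDegree_Hp n).trans hnm.le)
    · exact (natDegree_C_mul_le _ _).trans (natDegree_Hp m)
  have step1 := reduce (C 1 + C 2 * X + C a * Hp n + C b * Hp m) (C a * derivative^[2] (Hp n))
    (C b * derivative^[2] (Hp m)) (2 * n - 4) (3 * 10 ^ 7 * 2) m d0 (by omega)
    (by
      rw [iterate_map_add, iterate_map_add, deriv2_lin, zero_add,
        iterate_derivative_C_mul, iterate_derivative_C_mul])
    (by push_cast; exact Lop_deriv2_Hp a n) (Lop_deriv2_Hp b m) (by linarith)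
    (fun _ => by linarith) (by norm_num) (sym_Hp a n) (sym_Hp b m) hcon
  have e1 : Lop (2 * m) (C 1 + C 2 * X + C a * Hp n + C b * Hp m)
      = C (2 * m * 1 : ℂ) + C ((2 * m - 2) * 2 : ℂ) * X + C (a * (2 * m - 2 * n)) * Hp n := by
    rw [Lop_add, Lop_add, Lop_lin, Lop_C_mul, Lop_C_mul, Lop_Hp, Lop_shift (2 * n) (2 * m), Lop_Hp,
      map_mul (C : ℂ →+* ℂ[X]) a]
    ring
  rw [e1] at step1
  set a' : ℂ := a * (2 * m - 2 * n)
  have d1 : (C (2 * m * 1 : ℂ) + C ((2 * m - 2) * 2 : ℂ) * X + C a' * Hp n).natDegree ≤ n := by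
    refine (natDegree_add_le _ _).trans (max_le ?_ ?_)
    · exact (natDegree_lin _ _).trans (by omega)
    · exact (natDegree_C_mul_le _ _).trans (natDegree_Hp n)
  have step2 := reduce (C (2 * m * 1 : ℂ) + C ((2 * m - 2) * 2 : ℂ) * X + C a' * Hp n) 0
    (C a' * derivative^[2] (Hp n)) 0 2 n d1 (by omega)
    (by rw [iterate_map_add, deriv2_lin, iterate_derivative_C_mul])
    (Lop_zero _) (Lop_deriv2_Hp a' n) le_rfl
    (fun h => by
      have : (3 : ℝ) ≤ n := by exact_mod_cast h
      linarith) (by norm_num) (by simp) (sym_Hp a' n) step1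
  have e2 : Lop (2 * n) (C (2 * m * 1 : ℂ) + C ((2 * m - 2) * 2 : ℂ) * X + C a' * Hp n)
      = C (2 * n * (2 * m * 1) : ℂ) + C ((2 * n - 2) * ((2 * m - 2) * 2) : ℂ) * X := by
    rw [Lop_add, Lop_lin, Lop_C_mul, Lop_Hp]
    ring
  rw [e2] at step2
  have hpos : (0 : ℝ) < 2 * ((n - 1) * (m - 1)) := by
    have : (0 : ℝ) < n - 1 := by linarith
    have : (0 : ℝ) < m - 1 := by linarith
    positivity
  refine step2 ((-(n * m / (2 * ((n - 1) * (m - 1)))) : ℝ) : ℂ) ?_ ?_
  · rw [Complex.norm_real, Real.norm_eq_abs, abs_neg, abs_of_nonneg (by positivity),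
      div_le_iff₀ hpos]
    nlinarith
  · simp only [eval_add, eval_mul, eval_C, eval_X]
    have h1 : ((n - 1 : ℝ) : ℂ) ≠ 0 := by
      have : (n - 1 : ℝ) ≠ 0 := by linarith
      exact_mod_cast this
    have h2 : ((m - 1 : ℝ) : ℂ) ≠ 0 := by
      have : (m - 1 : ℝ) ≠ 0 := by linarith
      exact_mod_cast this
    push_cast at h1 h2 ⊢
    field_simp
    ring

lemma iteratedDeriv_gauss (k : ℕ) :
    iteratedDeriv k (fun w : ℂ => Complex.exp (-w ^ 2))
      = fun z => (-1) ^ k * eval z (Hp k) * Complex.exp (-z ^ 2) := by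
  induction k with
  | zero => ext z; simp [Hp]
  | succ k ih =>
    rw [iteratedDeriv_succ, ih]
    ext z
    have b1 : HasDerivAt (fun w : ℂ => -w ^ 2) (-(2 * z)) z := by
      refine ((hasDerivAt_pow 2 z).fun_neg).congr_deriv ?_
      simp
    have b2 := (((Hp k).hasDerivAt z).const_mul ((-1 : ℂ) ^ k)).mul b1.cexp
    rw [show (fun z : ℂ => (-1) ^ k * eval z (Hp k) * Complex.exp (-z ^ 2))
      = ((fun z : ℂ => (-1) ^ k * eval z (Hp k)) * fun z => Complex.exp (-z ^ 2)) from rfl,
      b2.deriv, Hp_succ]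
    simp only [eval_sub, eval_mul, eval_X, eval_ofNat]
    ring

lemma hermite_eq (k : ℕ) (z : ℂ) :
    (-1 : ℂ) ^ k * Complex.exp (z ^ 2) * iteratedDeriv k (fun w : ℂ => Complex.exp (-w ^ 2)) z
      = eval z (Hp k) := by
  rw [iteratedDeriv_gauss]
  have h1 : ((-1 : ℂ) ^ k) * (-1) ^ k = 1 := by
    rw [← mul_pow]; simp
  have h2 : Complex.exp (z ^ 2) * Complex.exp (-z ^ 2) = 1 := by
    rw [← Complex.exp_add]; simp
  calc _ = ((-1 : ℂ) ^ k * (-1) ^ k) * (Complex.exp (z ^ 2) * Complex.exp (-z ^ 2))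
        * eval z (Hp k) := by ring
    _ = _ := by rw [h1, h2]; ring

end Pool.Agent.P.MP_6deb90_an
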